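import Pool.Agent.Q86.EM.Frb
import Pool.Agent.Q86.EM.Asm3

/-!
# The hyperplane conjecture of Kannan, Lovasz and Simonovits for domains of bounded tree-depth

Let `I` be a rooted forest of height at most `d` and `Ω = -Ω` an open bounded convex set in `ℝ^I` which is
given by conditions on the coordinates along the branches: `Ω = {x : (x_u)_{u ≤ v} ∈ L_v for all v}`. Then Q1
holds for `Ω` with the constant `C^d`, `C` absolute. So Q1 holds, with a constant independent of the
dimension, for the symmetric sets given by convex conditions on groups of coordinates whose constraint graph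
has tree-depth at most `d`. `d = 1`: boxes; `d = k + 1`: sets in `ℝ^k × ℝ^n` fibred in boxes.

Method. See `Pool/Agent/Results/MP_6d896a_gt/BoundedTreeDepth.lean` for the Poincare inequality; the
passage to perimeters of sets of half the volume is by lemmas of the starting files.
-/

set_option autoImplicit false

namespace Pool.Agent.Results.MP_dc1397_gt.BoundedTreeDepth

open MeasureTheory Set
open scoped ENNReal InnerProductSpace

section defs

variable {κ : Type} [Fintype κ]

/-- an open, convex, bounded, nonempty set with `Ω = -Ω` -/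
structure Domain (Ω : Set (EuclideanSpace ℝ κ)) : Prop where
  op : IsOpen Ω
  conv : Convex ℝ Ω
  bdd : Bornology.IsBounded Ω
  ne : Ω.Nonempty
  symm : ∀ x ∈ Ω, -x ∈ Ω

/-- the Lebesgue measure of a Euclidean space -/
noncomputable def lebesgue (F : Type) [NormedAddCommGroup F] [InnerProductSpace ℝ F]
    [FiniteDimensional ℝ F] [MeasurableSpace F] [BorelSpace F] : Measure F := volume

/-- the Lebesgue measure (of the Euclidean space `W`) of the section `Ω ∩ W` by a subspace `W` -/
noncomputable def areaIn {F : Type} [NormedAddCommGroup F] [InnerProductSpace ℝ F]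
    [FiniteDimensional ℝ F] [MeasurableSpace F] [BorelSpace F] (W : Submodule ℝ F) (Ω : Set F) :
    ℝ≥0∞ := lebesgue W {y : W | (y : F) ∈ Ω}

open Classical in
/-- divergence of a vector field on `ℝ^κ` -/
noncomputable def divergence (X : EuclideanSpace ℝ κ → EuclideanSpace ℝ κ)
    (x : EuclideanSpace ℝ κ) : ℝ :=
  ∑ i, fderiv ℝ X x (EuclideanSpace.single i 1) i

/-- `C¹` vector fields with compact support in `Ω` and `‖X‖ ≤ 1` -/
structure Test (Ω : Set (EuclideanSpace ℝ κ)) (X : EuclideanSpace ℝ κ → EuclideanSpace ℝ κ) :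
    Prop where
  diff : ContDiff ℝ 1 X
  comp : HasCompactSupport X
  sub : tsupport X ⊆ Ω
  le : ∀ x, ‖X x‖ ≤ 1

/-- the (De Giorgi) perimeter `P(E; Ω)` of `E` relative to the open set `Ω` -/
noncomputable def perimeter (E Ω : Set (EuclideanSpace ℝ κ)) : ℝ≥0∞ :=
  ⨆ (X : EuclideanSpace ℝ κ → EuclideanSpace ℝ κ) (_ : Test Ω X),
    ENNReal.ofReal (∫ x in E, divergence X x)

/-- the area (Lebesgue measure in the hyperplane `a^⊥`) of the central section of `Ω` by `a^⊥` -/
noncomputable def sectionArea (Ω : Set (EuclideanSpace ℝ κ)) (a : EuclideanSpace ℝ κ) : ℝ≥0∞ :=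
  areaIn (Submodule.span ℝ {a})ᗮ Ω

/-- some central hyperplane section has area at most `K P(E; Ω)` for every measurable `E ⊆ Ω` with
`|E| = |Ω| / 2` -/
def HyperplaneBound (K : ℝ) (Ω : Set (EuclideanSpace ℝ κ)) : Prop :=
  ∃ a : EuclideanSpace ℝ κ, a ≠ 0 ∧ ∀ E : Set (EuclideanSpace ℝ κ), MeasurableSet E → E ⊆ Ω →
    volume E = volume Ω / 2 → sectionArea Ω a ≤ ENNReal.ofReal K * perimeter E Ω

/-- the perimeter is the one used in the proof -/
theorem perimeter_eq (E Ω : Set (EuclideanSpace ℝ κ)) :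
    Pool.Agent.W695.KH.per E Ω = perimeter E Ω := by
  unfold perimeter Pool.Agent.W695.KH.per
  refine iSup_congr fun X => ?_
  refine iSup_congr_Prop ⟨fun h => ⟨h.1, h.2.1, h.2.2.1, h.2.2.2⟩,
    fun h => ⟨h.diff, h.comp, h.sub, h.le⟩⟩ fun _ => rfl

end defs

/-- a rooted forest of height at most `d` (`u ≤ v`: `u = v`, or `u` is an ancestor of `v`): the elements
`u ≤ v` form a chain of at most `d` elements -/
structure Forest (ι : Type) [Fintype ι] [PartialOrder ι] (d : ℕ) : Prop where
  chain : ∀ v a b : ι, a ≤ v → b ≤ v → a ≤ b ∨ b ≤ a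
  height : ∀ v : ι, Nat.card {u : ι // u ≤ v} ≤ d

/-- `Ω` is given by conditions on the groups `(x_u)_{u ≤ v}` of coordinates: `x ∈ Ω` as soon as for every
`v` some point `y` of `Ω` has `y_u = x_u` for all `u ≤ v` -/
def Branched {ι : Type} [Fintype ι] [PartialOrder ι] (Ω : Set (EuclideanSpace ℝ ι)) : Prop :=
  ∀ x : EuclideanSpace ℝ ι, (∀ v : ι, ∃ y ∈ Ω, ∀ u : ι, u ≤ v → y u = x u) → x ∈ Ω

/-- **The hyperplane conjecture for domains of bounded tree-depth.** There is an absolute constant `C` such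
that for every nonempty rooted forest `ι` of height at most `d` and every symmetric open bounded convex set
`Ω ⊂ ℝ^ι` which is given by conditions on the groups of coordinates `(x_u)_{u ≤ v}`, `v ∈ ι`: some
central hyperplane section of `Ω` has area at most `C^d P(E; Ω)` for all measurable `E ⊆ Ω` with
`|E| = |Ω| / 2`. -/
theorem result : ∃ C : ℝ, 1 ≤ C ∧ ∀ (ι : Type) [Fintype ι] [Nonempty ι] [PartialOrder ι] (d : ℕ),
    Forest ι d → ∀ Ω : Set (EuclideanSpace ℝ ι), Domain Ω → Branched Ω →
    HyperplaneBound (C ^ d) Ω := by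
  obtain ⟨C, hC, H⟩ := Pool.Agent.Q86.EM.fr_hyp Pool.Agent.Q86.EM.q_dtd
  refine ⟨C, hC, ?_⟩
  intro ι _ _ _ d hF Ω hΩ hB
  obtain ⟨a, ha, h1⟩ := H ι d ⟨hF.chain, hF.height⟩ Ω ⟨hΩ.op, hΩ.conv, hΩ.bdd, hΩ.ne⟩ hΩ.symm hB
  refine ⟨a, ha, fun E hE hEΩ hvol => ?_⟩
  have h2 := h1 E hE hEΩ hvol
  rw [perimeter_eq] at h2
  exact h2

end Pool.Agent.Results.MP_dc1397_gt.BoundedTreeDepth
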