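import Pool.Agent.Q188.MB.Fin
import Pool.Agent.Q188.NC.Base

/-!
# The hyperplane conjecture of Kannan, Lovász and Simonovits for norm compositions of arbitrarily many bodies

Let `B_i ⊂ ℝ^{d_i}` (`i < b`) be symmetric convex sets and let `Ω = -Ω` be an open bounded convex set in
`ℝ^{d_1} × ⋯ × ℝ^{d_b}` for which membership of `(x_1, …, x_b)` depends only on `N_1(x_1), …, N_b(x_b)`,
the norms with unit balls `B_i` (for instance the unit ball of any norm
`‖(N_1(x_1), …, N_b(x_b))‖` with an unconditional norm of `ℝ^b`). If the Poincaré inequality with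
constant `κ ‖Cov‖` holds on each `B_i` and `∑ exp (- T d_i) ≤ 1`, then the area of the cheapest central
hyperplane section of `Ω` is at most `C √(1 + κ) (1 + T)` times the perimeter of any set of half the
volume, where `C` is absolute. The number `b` of the bodies is arbitrary: the constant is absolute (up to
`√(1 + κ)`) as soon as all `d_i ≥ log b`, and it is `√(1 + κ) (1 + log b / min d_i)` in general.

Proof. The variance of `f` is `E Var(f | radii) + Var E(f | radii)`.

The mean `E(f | radii)` has the same law as a `1`-Lipschitz function on the body `Ω'` in which every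
`B_i` is replaced by the Euclidean ball whose radius is the mean square radius of the cone measure of
`B_i`. The covariance of `Ω'` is not larger than that of `Ω`, and `Ω'` is treated by the starting file
`RadialBlocks`.

The directions are independent. By the inequality of Efron and Stein `E Var(f | radii)` is at most the
sum over `i` of the variances with respect to one direction. Given the other components, `x_i` is
uniform in `L_i B_i`, where `L_i` is a function of the other radii, and the variance over the direction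
is at most `κ s_i L_i² E ‖∇_i f‖²`, where `s_i` is the norm of the covariance of `B_i`. The sum over `i`
is at most `κ E max s_i L_i²`, and the moments of `L_i` are compared with those of the radius
(Berwald's inequality), which gives `E max s_i L_i² ≤ 4 (5 + 2 T)² s`.
-/

set_option autoImplicit false

namespace Pool.Agent.Results.MP_dc1397_gt.ManyNormBlocks

open MeasureTheory Set
open scoped ENNReal InnerProductSpace

/-- Euclidean space of dimension `n` -/
abbrev Euc (n : ℕ) : Type := EuclideanSpace ℝ (Fin n)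

section defs

variable {κ : Type} [Fintype κ]

/-- an open, convex, bounded, nonempty set with `Ω = -Ω` -/
structure Domain (Ω : Set (EuclideanSpace ℝ κ)) : Prop where
  op : IsOpen Ω
  conv : Convex ℝ Ω
  bdd : Bornology.IsBounded Ω
  ne : Ω.Nonempty
  symm : ∀ x ∈ Ω, -x ∈ Ω

/-- mean value over `Ω` -/
noncomputable def mean (Ω : Set (EuclideanSpace ℝ κ)) (f : EuclideanSpace ℝ κ → ℝ) : ℝ :=
  (∫ x in Ω, f x) / (volume Ω).toReal

/-- every `1`-Lipschitz function of class `C¹` has variance at most `K` times the largest variance of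
a linear functional of norm one on the symmetric set `Ω` -/
def LipschitzGap (K : ℝ) (Ω : Set (EuclideanSpace ℝ κ)) : Prop :=
  ∀ s : ℝ, (∀ θ : EuclideanSpace ℝ κ, mean Ω (fun x => ⟪θ, x⟫_ℝ ^ 2) ≤ s * ‖θ‖ ^ 2) →
    ∀ f : EuclideanSpace ℝ κ → ℝ, ContDiff ℝ 1 f → (∀ x, ‖fderiv ℝ f x‖ ≤ 1) →
      mean Ω (fun x => f x ^ 2) - mean Ω f ^ 2 ≤ K * s

/-- Poincaré inequality `Var f ≤ K s E ‖∇ f‖²` on the symmetric set `Ω` for all functions of class `C¹`,
where `s` is the largest variance of a linear functional of norm one -/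
def PoincareGap (K : ℝ) (Ω : Set (EuclideanSpace ℝ κ)) : Prop :=
  ∀ s : ℝ, (∀ θ : EuclideanSpace ℝ κ, mean Ω (fun x => ⟪θ, x⟫_ℝ ^ 2) ≤ s * ‖θ‖ ^ 2) →
    ∀ f : EuclideanSpace ℝ κ → ℝ, ContDiff ℝ 1 f →
      mean Ω (fun x => f x ^ 2) - mean Ω f ^ 2 ≤ K * s * mean Ω (fun x => ‖fderiv ℝ f x‖ ^ 2)

/-- the Lebesgue measure of a Euclidean space -/
noncomputable def lebesgue (F : Type) [NormedAddCommGroup F] [InnerProductSpace ℝ F]
    [FiniteDimensional ℝ F] [MeasurableSpace F] [BorelSpace F] : Measure F := volume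

/-- the Lebesgue measure (of the Euclidean space `W`) of the section `Ω ∩ W` by a subspace `W` -/
noncomputable def areaIn {F : Type} [NormedAddCommGroup F] [InnerProductSpace ℝ F]
    [FiniteDimensional ℝ F] [MeasurableSpace F] [BorelSpace F] (W : Submodule ℝ F) (Ω : Set F) :
    ℝ≥0∞ := lebesgue W {y : W | (y : F) ∈ Ω}

open Classical in
/-- divergence of a vector field on `ℝ^κ` -/
noncomputable def divergence (X : EuclideanSpace ℝ κ → EuclideanSpace ℝ κ)
    (x : EuclideanSpace ℝ κ) : ℝ :=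
  ∑ i, fderiv ℝ X x (EuclideanSpace.single i 1) i

/-- `C¹` vector fields with compact support in `Ω` and `‖X‖ ≤ 1` -/
structure Test (Ω : Set (EuclideanSpace ℝ κ)) (X : EuclideanSpace ℝ κ → EuclideanSpace ℝ κ) :
    Prop where
  diff : ContDiff ℝ 1 X
  comp : HasCompactSupport X
  sub : tsupport X ⊆ Ω
  le : ∀ x, ‖X x‖ ≤ 1

/-- the (De Giorgi) perimeter `P(E; Ω)` of `E` relative to the open set `Ω` -/
noncomputable def perimeter (E Ω : Set (EuclideanSpace ℝ κ)) : ℝ≥0∞ :=
  ⨆ (X : EuclideanSpace ℝ κ → EuclideanSpace ℝ κ) (_ : Test Ω X),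
    ENNReal.ofReal (∫ x in E, divergence X x)

/-- the area (Lebesgue measure in the hyperplane `a^⊥`) of the central section of `Ω` by `a^⊥` -/
noncomputable def sectionArea (Ω : Set (EuclideanSpace ℝ κ)) (a : EuclideanSpace ℝ κ) : ℝ≥0∞ :=
  areaIn (Submodule.span ℝ {a})ᗮ Ω

/-- some central hyperplane section has area at most `K P(E; Ω)` for every measurable `E ⊆ Ω` with
`|E| = |Ω| / 2` -/
def HyperplaneBound (K : ℝ) (Ω : Set (EuclideanSpace ℝ κ)) : Prop :=
  ∃ a : EuclideanSpace ℝ κ, a ≠ 0 ∧ ∀ E : Set (EuclideanSpace ℝ κ), MeasurableSet E → E ⊆ Ω →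
    volume E = volume Ω / 2 → sectionArea Ω a ≤ ENNReal.ofReal K * perimeter E Ω

/-- the perimeter is the one used in the proof -/
theorem perimeter_eq (E Ω : Set (EuclideanSpace ℝ κ)) :
    Pool.Agent.W695.KH.per E Ω = perimeter E Ω := by
  unfold perimeter Pool.Agent.W695.KH.per
  refine iSup_congr fun X => ?_
  refine iSup_congr_Prop ⟨fun h => ⟨h.1, h.2.1, h.2.2.1, h.2.2.2⟩,
    fun h => ⟨h.diff, h.comp, h.sub, h.le⟩⟩ fun _ => rfl

end defs

/-! ### compositions -/

/-- `ℝ^{d_1} × ⋯ × ℝ^{d_b}` -/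
abbrev Space {b : ℕ} (d : Fin b → ℕ) : Type := EuclideanSpace ℝ (Σ i : Fin b, Fin (d i))

/-- the component in `ℝ^{d_i}` -/
noncomputable def block {b : ℕ} {d : Fin b → ℕ} (x : Space d) (i : Fin b) : Euc (d i) :=
  WithLp.toLp 2 fun j => x ⟨i, j⟩

/-- membership in `Ω` depends only on the norms `gauge (B i)` (with unit ball `B i`) of the components -/
structure Composition {b : ℕ} {d : Fin b → ℕ} (B : ∀ i, Set (Euc (d i))) (Ω : Set (Space d)) :
    Prop where
  dim : ∀ i, 1 ≤ d i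
  ball : ∀ i, Domain (B i)
  dom : Domain Ω
  dep : ∀ x y : Space d, (∀ i, gauge (B i) (block x i) = gauge (B i) (block y i)) → x ∈ Ω → y ∈ Ω

/-! ### two families of blocks -/

/-- `B = {x | Q_i x ∈ D_i for all i}` with linear maps `Q_i` to `ℝ^{m_i}` and domains
`D_i ⊂ ℝ^{m_i}`, where `m_i ≤ m` and `∑ m_i ≤ n + q` (sections of codimension `q` of products of low
dimensional sets; with `m = 1` the symmetric polytopes with `2 (n + q)` facets; with `m = n`, `q = 0` all
symmetric sets of dimension at most `m`) -/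
def SectionOfProduct {n : ℕ} (m q : ℕ) (B : Set (Euc n)) : Prop :=
  ∃ (N : ℕ) (e : Fin N → ℕ) (Q : ∀ i, Euc n →ₗ[ℝ] Euc (e i)) (D : ∀ i, Set (Euc (e i))),
    (∀ i, e i ≤ m) ∧ ∑ i, e i ≤ n + q ∧ (∀ i, Domain (D i)) ∧ B = {x | ∀ i, Q i x ∈ D i}

/-- `B = {x | ∑_j |ℓ_ij(x)|^{p_ij} < 1 for all i}` with linear functionals `ℓ_ij`, `j < m_i`, exponents
`p_ij ≥ 2` and `∑ m_i ≤ n + q` (sections of codimension `q` of products of generalised `ℓ_p` balls) -/
def PowerBody {n : ℕ} (q : ℕ) (B : Set (Euc n)) : Prop :=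
  ∃ (N : ℕ) (m : Fin N → ℕ) (p : ∀ i, Fin (m i) → ℝ) (ell : ∀ i, Fin (m i) → (Euc n →ₗ[ℝ] ℝ)),
    (∀ i, 1 ≤ m i) ∧ ∑ i, m i ≤ n + q ∧ (∀ i j, 2 ≤ p i j) ∧
      B = {x | ∀ i, ∑ j, |ell i j x| ^ p i j < 1}

theorem Domain.dom {κ : Type} [Fintype κ] {B : Set (EuclideanSpace ℝ κ)} (h : Domain B) :
    Pool.Agent.Q188.NC.Dom B :=
  ⟨h.op, h.conv, h.bdd, h.ne, h.symm⟩

/-- the Poincaré inequality of the two families -/
theorem family_gap (n m q : ℕ) (B : Set (Euc n)) (hn1 : 1 ≤ n) (hB : Domain B)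
    (h : SectionOfProduct m q B ∨ PowerBody q B) :
    PoincareGap (116486307840 * 16 * ((1 + (m : ℝ)) ^ 2 * (1 + (q : ℝ)) ^ 4)) B := by
  have hq1 : (0 : ℝ) ≤ q := Nat.cast_nonneg q
  have hm1 : (0 : ℝ) ≤ m := Nat.cast_nonneg m
  have hq4 : ((q : ℝ) + 2) ^ 4 ≤ 16 * (1 + (q : ℝ)) ^ 4 := by
    calc ((q : ℝ) + 2) ^ 4 ≤ (2 * (1 + (q : ℝ))) ^ 4 := by gcongr; linarith
      _ = 16 * (1 + (q : ℝ)) ^ 4 := by ring
  have hm2 : (1 : ℝ) ≤ (1 + (m : ℝ)) ^ 2 := by nlinarith
  have hn : Nonempty (Fin n) := ⟨⟨0, hn1⟩⟩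
  have hdom := hB.dom
  rcases h with h | h
  · obtain ⟨N, e, Q, D, he, hsum, hD, hrep⟩ := h
    refine Pool.Agent.Q188.MB.pi_mono hdom (Pool.Agent.Q188.MB.pi_sop hn1 hdom m q N e Q D he hsum
      (fun j => (hD j).dom) hrep) ?_
    unfold Pool.Agent.Y506.KS.CB
    calc 5505024 * ((m : ℝ) + 1) ^ 2 * ((q : ℝ) + 2) ^ 4
        ≤ 5505024 * ((m : ℝ) + 1) ^ 2 * (16 * (1 + (q : ℝ)) ^ 4) := by gcongr
      _ = 5505024 * 16 * ((1 + (m : ℝ)) ^ 2 * (1 + (q : ℝ)) ^ 4) := by ring
      _ ≤ 116486307840 * 16 * ((1 + (m : ℝ)) ^ 2 * (1 + (q : ℝ)) ^ 4) := by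
          have : 0 ≤ (1 + (m : ℝ)) ^ 2 * (1 + (q : ℝ)) ^ 4 := by positivity
          nlinarith
  · obtain ⟨N, m', p, ell, hm', hsum, hp, hrep⟩ := h
    refine Pool.Agent.Q188.MB.pi_mono hdom (Pool.Agent.Q188.MB.pi_pow hn1 q N m' p ell hm' hsum hp hdom
      hrep) ?_
    unfold Pool.Agent.Y506.KS.CP
    calc 116486307840 * ((q : ℝ) + 2) ^ 4
        ≤ 116486307840 * (16 * (1 + (q : ℝ)) ^ 4) := by gcongr
      _ = 116486307840 * 16 * (1 * (1 + (q : ℝ)) ^ 4) := by ring
      _ ≤ 116486307840 * 16 * ((1 + (m : ℝ)) ^ 2 * (1 + (q : ℝ)) ^ 4) := by gcongr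

/-- **The hyperplane conjecture for compositions of arbitrarily many bodies.** There is an absolute
constant `C > 0` such that the following holds for all `b ≥ 1`, all dimensions `d_i`, all compositions `Ω`
of `B_1, …, B_b` and every `T ≥ 0` with `∑ exp (- T d_i) ≤ 1`.
1. If each `B_i` satisfies the Poincaré inequality with constant `κ` (relative to its covariance), then
   every `1`-Lipschitz function on `Ω` has variance at most `C (1 + κ) (1 + T)²` times the largest variance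
   of a linear functional of norm one, and some central hyperplane section of `Ω` has area at most
   `C √(1 + κ) (1 + T) P(E; Ω)` for all `E` of half the volume.
2. In particular with `1 + κ` replaced by `(1 + m)² (1 + q)⁴` if each `B_i` is a section of codimension at
   most `q` of a product of symmetric convex sets of dimension at most `m`, or of a product of generalised
   `ℓ_p` balls (exponents at least `2`). -/
theorem result : ∃ C : ℝ, 0 < C ∧
    ∀ (b : ℕ) (d : Fin b → ℕ) (B : ∀ i, Set (Euc (d i))) (Ω : Set (Space d)), 1 ≤ b →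
      Composition B Ω → ∀ T : ℝ, 0 ≤ T → ∑ i, Real.exp (-(T * d i)) ≤ 1 →
      (∀ κ : ℝ, 0 ≤ κ → (∀ i, PoincareGap κ (B i)) →
        LipschitzGap (C * (1 + κ) * (1 + T) ^ 2) Ω ∧
        HyperplaneBound (C * (Real.sqrt (1 + κ) * (1 + T))) Ω) ∧
      (∀ m q : ℕ, (∀ i, SectionOfProduct m q (B i) ∨ PowerBody q (B i)) →
        LipschitzGap (C * ((1 + m) ^ 2 * (1 + q) ^ 4) * (1 + T) ^ 2) Ω ∧
        HyperplaneBound (C * ((1 + m) * (1 + q) ^ 2 * (1 + T))) Ω) := by
  have hKC := Pool.Agent.Q188.MB.KC_pos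
  obtain ⟨C0, hC0, H⟩ := Pool.Agent.Q188.NC.kls_hyp
  set M : ℝ := 116486307840 * 16 + 1 with hM
  have hM0 : 0 < M := by rw [hM]; norm_num
  have hM1 : 1 ≤ M := by rw [hM]; norm_num
  have hZ : 0 < Pool.Agent.Q188.MB.KC * M := by positivity
  set C : ℝ := Pool.Agent.Q188.MB.KC * M + C0 * Real.sqrt (Pool.Agent.Q188.MB.KC * M) with hC
  have hCpos : 0 < C := by positivity
  refine ⟨C, hCpos, ?_⟩
  intro b d B Ω hb hc T hT0 hT
  have hne : Nonempty (Σ i : Fin b, Fin (d i)) := ⟨⟨⟨0, by omega⟩, ⟨0, hc.dim _⟩⟩⟩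
  have hdom : Pool.Agent.Q188.NC.Dom Ω := hc.dom.dom
  have key : ∀ A : ℝ, 1 ≤ A → (∀ i, PoincareGap (M * A - 1) (B i)) →
      LipschitzGap (C * A * (1 + T) ^ 2) Ω ∧ HyperplaneBound (C * (Real.sqrt A * (1 + T))) Ω := by
    intro A hA hgap
    have hMA : 1 ≤ M * A := by nlinarith
    have hkls := Pool.Agent.Q188.MB.kls_sp (by omega) hc.dim (fun i => (hc.ball i).dom) hdom
      hc.dep (show (0 : ℝ) ≤ M * A - 1 by linarith) hgap hT0 hT
    have e0 : Pool.Agent.Q188.MB.KC * (1 + (M * A - 1)) * (1 + T) ^ 2 =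
        Pool.Agent.Q188.MB.KC * M * A * (1 + T) ^ 2 := by ring
    rw [e0] at hkls
    have hY : 0 < Pool.Agent.Q188.MB.KC * M * A * (1 + T) ^ 2 := by positivity
    constructor
    · refine Pool.Agent.Q188.NC.kls_mono hdom.op hdom.bdd hdom.zero_mem hkls ?_
      have h1 : Pool.Agent.Q188.MB.KC * M ≤ C := by
        rw [hC]
        have : 0 ≤ C0 * Real.sqrt (Pool.Agent.Q188.MB.KC * M) := by positivity
        linarith
      gcongr
    · obtain ⟨a, ha, h⟩ := H _ Ω hc.dom.op hc.dom.conv hc.dom.bdd hdom.zero_mem hc.dom.symm _ hY hkls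
      refine ⟨a, ha, fun E hE hEΩ hvol => ?_⟩
      have h4 := h E hE hEΩ hvol
      rw [perimeter_eq] at h4
      refine h4.trans (mul_le_mul' (ENNReal.ofReal_le_ofReal ?_) le_rfl)
      have hT2 : 0 ≤ 1 + T := by linarith
      have h5 : Real.sqrt (Pool.Agent.Q188.MB.KC * M * A * (1 + T) ^ 2) =
          Real.sqrt (Pool.Agent.Q188.MB.KC * M) * (Real.sqrt A * (1 + T)) := by
        rw [Real.sqrt_mul (show 0 ≤ Pool.Agent.Q188.MB.KC * M * A by positivity),
          Real.sqrt_mul (show 0 ≤ Pool.Agent.Q188.MB.KC * M by positivity), Real.sqrt_sq hT2]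
        ring
      rw [h5, ← mul_assoc]
      have h6 : C0 * Real.sqrt (Pool.Agent.Q188.MB.KC * M) ≤ C := by
        rw [hC]
        linarith
      have h7 : 0 ≤ Real.sqrt A * (1 + T) := by positivity
      exact mul_le_mul_of_nonneg_right h6 h7
  constructor
  · intro κ hκ hgap
    refine key (1 + κ) (by linarith) fun i => ?_
    have hni : Nonempty (Fin (d i)) := ⟨⟨0, hc.dim i⟩⟩
    exact Pool.Agent.Q188.MB.pi_mono (hc.ball i).dom (hgap i) (by nlinarith)
  · intro m q hfam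
    have hq1 : (0 : ℝ) ≤ q := Nat.cast_nonneg q
    have hm1 : (0 : ℝ) ≤ m := Nat.cast_nonneg m
    have hA : (1 : ℝ) ≤ (1 + (m : ℝ)) ^ 2 * (1 + (q : ℝ)) ^ 4 := by
      have h1 : (1 : ℝ) ≤ (1 + (m : ℝ)) ^ 2 := one_le_pow₀ (by linarith)
      have h2 : (1 : ℝ) ≤ (1 + (q : ℝ)) ^ 4 := one_le_pow₀ (by linarith)
      nlinarith
    have h3 := key ((1 + (m : ℝ)) ^ 2 * (1 + (q : ℝ)) ^ 4) hA fun i => by
      have hni : Nonempty (Fin (d i)) := ⟨⟨0, hc.dim i⟩⟩
      refine Pool.Agent.Q188.MB.pi_mono (hc.ball i).dom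
        (family_gap (d i) m q (B i) (hc.dim i) (hc.ball i) (hfam i)) ?_
      rw [hM]
      linarith
    have hsq : Real.sqrt ((1 + (m : ℝ)) ^ 2 * (1 + (q : ℝ)) ^ 4) = (1 + m) * (1 + q) ^ 2 := by
      have : (1 + (m : ℝ)) ^ 2 * (1 + (q : ℝ)) ^ 4 = ((1 + m) * (1 + q) ^ 2) ^ 2 := by ring
      rw [this, Real.sqrt_sq (by positivity)]
    rw [hsq] at h3
    exact h3

end Pool.Agent.Results.MP_dc1397_gt.ManyNormBlocks
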