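import Pool.Agent.Q188.NS.Iso

/-!
# The hyperplane conjecture of Kannan, Lovász and Simonovits for nested norm compositions

Start with symmetric convex sets (leaves) of any dimensions and form, up to `D` times, arbitrary
compositions: symmetric convex sets `Ω` in `ℝ^{d_1} × ⋯ × ℝ^{d_b} × ℝ^k` for which membership of
`(x_1, …, x_b, t)` depends only on `N_1(x_1), …, N_b(x_b)` and on `t`, where the `N_i` are the norms whose
unit balls were built before. If the `1`-Lipschitz functions on the leaves have variance at most `K` times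
the largest variance of a linear functional of norm one, then some central hyperplane section of the final
set `Ω` has area at most `C(K, b, k, D)` times the perimeter of any set of half the volume. The dimensions
do not enter. With `D = 1` these are the compositions of our earlier file `NormCompositions`.

The proof iterates the composition theorem of `Pool/Agent/Q188/NC/Kls.lean` (see the header of
`Pool/Agent/Results/MP_dc1397_gt/NormCompositions.lean`), and passes from Lipschitz functions to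
perimeters by the lemmas of the starting files.
-/

set_option autoImplicit false

namespace Pool.Agent.Results.MP_dc1397_gt.NestedNormCompositions

open MeasureTheory Set
open scoped ENNReal InnerProductSpace

/-- Euclidean space of dimension `n` -/
abbrev Euc (n : ℕ) : Type := EuclideanSpace ℝ (Fin n)

section defs

variable {κ : Type} [Fintype κ]

/-- an open, convex, bounded, nonempty set with `Ω = -Ω` -/
structure Domain (Ω : Set (EuclideanSpace ℝ κ)) : Prop where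
  op : IsOpen Ω
  conv : Convex ℝ Ω
  bdd : Bornology.IsBounded Ω
  ne : Ω.Nonempty
  symm : ∀ x ∈ Ω, -x ∈ Ω

/-- mean value over `Ω` -/
noncomputable def mean (Ω : Set (EuclideanSpace ℝ κ)) (f : EuclideanSpace ℝ κ → ℝ) : ℝ :=
  (∫ x in Ω, f x) / (volume Ω).toReal

/-- every `1`-Lipschitz function of class `C¹` has variance at most `K` times the largest variance of
a linear functional of norm one on the symmetric set `Ω` -/
def LipschitzGap (K : ℝ) (Ω : Set (EuclideanSpace ℝ κ)) : Prop :=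
  ∀ s : ℝ, (∀ θ : EuclideanSpace ℝ κ, mean Ω (fun x => ⟪θ, x⟫_ℝ ^ 2) ≤ s * ‖θ‖ ^ 2) →
    ∀ f : EuclideanSpace ℝ κ → ℝ, ContDiff ℝ 1 f → (∀ x, ‖fderiv ℝ f x‖ ≤ 1) →
      mean Ω (fun x => f x ^ 2) - mean Ω f ^ 2 ≤ K * s

/-- the Lebesgue measure of a Euclidean space -/
noncomputable def lebesgue (F : Type) [NormedAddCommGroup F] [InnerProductSpace ℝ F]
    [FiniteDimensional ℝ F] [MeasurableSpace F] [BorelSpace F] : Measure F := volume

/-- the Lebesgue measure (of the Euclidean space `W`) of the section `Ω ∩ W` by a subspace `W` -/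
noncomputable def areaIn {F : Type} [NormedAddCommGroup F] [InnerProductSpace ℝ F]
    [FiniteDimensional ℝ F] [MeasurableSpace F] [BorelSpace F] (W : Submodule ℝ F) (Ω : Set F) :
    ℝ≥0∞ := lebesgue W {y : W | (y : F) ∈ Ω}

open Classical in
/-- divergence of a vector field on `ℝ^κ` -/
noncomputable def divergence (X : EuclideanSpace ℝ κ → EuclideanSpace ℝ κ)
    (x : EuclideanSpace ℝ κ) : ℝ :=
  ∑ i, fderiv ℝ X x (EuclideanSpace.single i 1) i

/-- `C¹` vector fields with compact support in `Ω` and `‖X‖ ≤ 1` -/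
structure Test (Ω : Set (EuclideanSpace ℝ κ)) (X : EuclideanSpace ℝ κ → EuclideanSpace ℝ κ) :
    Prop where
  diff : ContDiff ℝ 1 X
  comp : HasCompactSupport X
  sub : tsupport X ⊆ Ω
  le : ∀ x, ‖X x‖ ≤ 1

/-- the (De Giorgi) perimeter `P(E; Ω)` of `E` relative to the open set `Ω` -/
noncomputable def perimeter (E Ω : Set (EuclideanSpace ℝ κ)) : ℝ≥0∞ :=
  ⨆ (X : EuclideanSpace ℝ κ → EuclideanSpace ℝ κ) (_ : Test Ω X),
    ENNReal.ofReal (∫ x in E, divergence X x)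

/-- the area (Lebesgue measure in the hyperplane `a^⊥`) of the central section of `Ω` by `a^⊥` -/
noncomputable def sectionArea (Ω : Set (EuclideanSpace ℝ κ)) (a : EuclideanSpace ℝ κ) : ℝ≥0∞ :=
  areaIn (Submodule.span ℝ {a})ᗮ Ω

/-- some central hyperplane section has area at most `K P(E; Ω)` for every measurable `E ⊆ Ω` with
`|E| = |Ω| / 2` -/
def HyperplaneBound (K : ℝ) (Ω : Set (EuclideanSpace ℝ κ)) : Prop :=
  ∃ a : EuclideanSpace ℝ κ, a ≠ 0 ∧ ∀ E : Set (EuclideanSpace ℝ κ), MeasurableSet E → E ⊆ Ω →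
    volume E = volume Ω / 2 → sectionArea Ω a ≤ ENNReal.ofReal K * perimeter E Ω

/-- the perimeter is the one used in the proof -/
theorem perimeter_eq (E Ω : Set (EuclideanSpace ℝ κ)) :
    Pool.Agent.W695.KH.per E Ω = perimeter E Ω := by
  unfold perimeter Pool.Agent.W695.KH.per
  refine iSup_congr fun X => ?_
  refine iSup_congr_Prop ⟨fun h => ⟨h.1, h.2.1, h.2.2.1, h.2.2.2⟩,
    fun h => ⟨h.diff, h.comp, h.sub, h.le⟩⟩ fun _ => rfl

end defs

/-- `ℝ^{d_1} × ⋯ × ℝ^{d_b} × ℝ^k` -/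
abbrev Space {b : ℕ} (d : Fin b → ℕ) (k : ℕ) : Type :=
  EuclideanSpace ℝ ((Σ i : Fin b, Fin (d i)) ⊕ Fin k)

/-- the component in `ℝ^{d_i}` -/
noncomputable def block {b k : ℕ} {d : Fin b → ℕ} (x : Space d k) (i : Fin b) : Euc (d i) :=
  WithLp.toLp 2 fun j => x (Sum.inl ⟨i, j⟩)

/-- the component in `ℝ^k` -/
def last {b k : ℕ} {d : Fin b → ℕ} (x : Space d k) : Fin k → ℝ := fun j => x (Sum.inr j)

/-- membership in `Ω` depends only on the norms `gauge (B i)` (with unit ball `B i`) of the components in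
`ℝ^{d_i}` and on the component in `ℝ^k` -/
structure Composition {b k : ℕ} {d : Fin b → ℕ} (B : ∀ i, Set (Euc (d i))) (Ω : Set (Space d k)) :
    Prop where
  dim : ∀ i, 1 ≤ d i
  ball : ∀ i, Domain (B i)
  dom : Domain Ω
  dep : ∀ x y : Space d k, (∀ i, gauge (B i) (block x i) = gauge (B i) (block y i)) →
    last x = last y → x ∈ Ω → y ∈ Ω

/-- Sets built from leaves with the property `P` by at most `D` nested compositions, each with at most
`b` blocks (built before) and at most `k` further coordinates. -/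
inductive Nested (P : ∀ n : ℕ, Set (Euc n) → Prop) (b k : ℕ) : ℕ → ∀ n : ℕ, Set (Euc n) → Prop
  | leaf (n : ℕ) (B : Set (Euc n)) : 1 ≤ n → Domain B → P n B → Nested P b k 0 n B
  | node (D n b' k' : ℕ) (d e : Fin b' → ℕ) (B : ∀ i, Set (Euc (d i))) (Ω : Set (Space d k'))
      (T : Space d k' ≃ₗᵢ[ℝ] Euc n) : b' ≤ b → k' ≤ k → 1 ≤ b' + k' → Composition B Ω →
      (∀ i, e i ≤ D) → (∀ i, Nested P b k (e i) (d i) (B i)) → Nested P b k (D + 1) n (T '' Ω)

/-! ### three families of leaves -/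

/-- `B = {x | Q_i x ∈ D_i for all i}` with linear maps `Q_i` to `ℝ^{m_i}` and domains
`D_i ⊂ ℝ^{m_i}`, where `m_i ≤ m` and `∑ m_i ≤ n + q` (sections of codimension `q` of products of low
dimensional sets; with `m = 1` the symmetric polytopes with `2 (n + q)` facets) -/
def SectionOfProduct {n : ℕ} (m q : ℕ) (B : Set (Euc n)) : Prop :=
  ∃ (N : ℕ) (e : Fin N → ℕ) (Q : ∀ i, Euc n →ₗ[ℝ] Euc (e i)) (D : ∀ i, Set (Euc (e i))),
    (∀ i, e i ≤ m) ∧ ∑ i, e i ≤ n + q ∧ (∀ i, Domain (D i)) ∧ B = {x | ∀ i, Q i x ∈ D i}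

/-- `B = {x | ∑_j |ℓ_ij(x)|^{p_ij} < 1 for all i}` with linear functionals `ℓ_ij`, `j < m_i`, exponents
`p_ij ≥ 2` and `∑ m_i ≤ n + q` (sections of codimension `q` of products of generalised `ℓ_p` balls) -/
def PowerBody {n : ℕ} (q : ℕ) (B : Set (Euc n)) : Prop :=
  ∃ (N : ℕ) (m : Fin N → ℕ) (p : ∀ i, Fin (m i) → ℝ) (ell : ∀ i, Fin (m i) → (Euc n →ₗ[ℝ] ℝ)),
    (∀ i, 1 ≤ m i) ∧ ∑ i, m i ≤ n + q ∧ (∀ i j, 2 ≤ p i j) ∧
      B = {x | ∀ i, ∑ j, |ell i j x| ^ p i j < 1}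

/-- `c |y - x|² / 2 ≤ V(y) - V(x) - ⟪g(x), y - x⟫ ≤ Λ |y - x|² / 2`: for `C²` functions this says that
the eigenvalues of the Hessian of `V` lie between `c` and `Λ` -/
structure HessianBounds {n : ℕ} (V : Euc n → ℝ) (g : Euc n → Euc n) (c Λ : ℝ) : Prop where
  pos : 0 < c
  low : ∀ x y, V x + ⟪g x, y - x⟫_ℝ + c / 2 * ‖y - x‖ ^ 2 ≤ V y
  up : ∀ x y, V y ≤ V x + ⟪g x, y - x⟫_ℝ + Λ / 2 * ‖y - x‖ ^ 2

/-- the closure of `B` is an intersection of closed balls of radius `ρ v`, where `v` is the volume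
radius of `B`, or a sublevel set of a function with Hessian between `c` and `ρ c` -/
def StronglyConvex {n : ℕ} (ρ : ℝ) (B : Set (Euc n)) : Prop :=
  (∃ v : ℝ, 0 < v ∧ volume B = volume (Metric.closedBall (0 : Euc n) v) ∧
    ∃ Z : Set (Euc n), closure B = ⋂ z ∈ Z, Metric.closedBall z (ρ * v)) ∨
  ∃ (V : Euc n → ℝ) (g : Euc n → Euc n) (c : ℝ), HessianBounds V g c (ρ * c) ∧
    closure B = {x | V x ≤ 0}

theorem Domain.dom {n : ℕ} {B : Set (Euc n)} (h : Domain B) : Pool.Agent.Q188.NC.Dom B :=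
  ⟨h.op, h.conv, h.bdd, h.ne, h.symm⟩

/-- the gap of the three families -/
theorem leaf_gap (n m q : ℕ) (ρ : ℝ) (hρ : 1 ≤ ρ) (B : Set (Euc n)) (hn1 : 1 ≤ n) (hB : Domain B)
    (h : SectionOfProduct m q B ∨ PowerBody q B ∨ StronglyConvex ρ B) :
    LipschitzGap (116486307840 * 16 * ((1 + (m : ℝ)) ^ 2 * (1 + (q : ℝ)) ^ 4 + ρ)) B := by
  set T : ℝ := 116486307840 * 16 * ((1 + (m : ℝ)) ^ 2 * (1 + (q : ℝ)) ^ 4 + ρ) with hT
  have hq1 : (0 : ℝ) ≤ q := Nat.cast_nonneg q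
  have hm1 : (0 : ℝ) ≤ m := Nat.cast_nonneg m
  have hq4 : ((q : ℝ) + 2) ^ 4 ≤ 16 * (1 + (q : ℝ)) ^ 4 := by
    calc ((q : ℝ) + 2) ^ 4 ≤ (2 * (1 + (q : ℝ))) ^ 4 := by gcongr; linarith
      _ = 16 * (1 + (q : ℝ)) ^ 4 := by ring
  have hm2 : (1 : ℝ) ≤ (1 + (m : ℝ)) ^ 2 := by nlinarith
  have hn : Nonempty (Fin n) := ⟨⟨0, hn1⟩⟩
  have hdom := hB.dom
  have hmono : ∀ K : ℝ, Pool.Agent.Q188.NC.KLS K B → K ≤ T → LipschitzGap T B :=
    fun K hK hKT => Pool.Agent.Q188.NC.kls_mono hdom.op hdom.bdd hdom.zero_mem hK hKT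
  rcases h with h | h | h
  · obtain ⟨N, e, Q, D, he, hsum, hD, hrep⟩ := h
    refine hmono _ (Pool.Agent.Q188.NC.kls_sop hn1 hdom m q N e Q D he hsum
      (fun j => (hD j).dom) hrep) ?_
    unfold Pool.Agent.Y506.KS.CB
    rw [hT]
    calc 5505024 * ((m : ℝ) + 1) ^ 2 * ((q : ℝ) + 2) ^ 4
        ≤ 5505024 * ((m : ℝ) + 1) ^ 2 * (16 * (1 + (q : ℝ)) ^ 4) := by gcongr
      _ = 5505024 * 16 * ((1 + (m : ℝ)) ^ 2 * (1 + (q : ℝ)) ^ 4) := by ring
      _ ≤ 116486307840 * 16 * ((1 + (m : ℝ)) ^ 2 * (1 + (q : ℝ)) ^ 4 + ρ) := by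
          have : 0 ≤ (1 + (m : ℝ)) ^ 2 * (1 + (q : ℝ)) ^ 4 := by positivity
          nlinarith
  · obtain ⟨N, m', p, ell, hm', hsum, hp, hrep⟩ := h
    refine hmono _ (Pool.Agent.Q188.NC.kls_pow hn1 q N m' p ell hm' hsum hp hdom hrep) ?_
    unfold Pool.Agent.Y506.KS.CP
    rw [hT]
    calc 116486307840 * ((q : ℝ) + 2) ^ 4
        ≤ 116486307840 * (16 * (1 + (q : ℝ)) ^ 4) := by gcongr
      _ = 116486307840 * 16 * (1 * (1 + (q : ℝ)) ^ 4) := by ring
      _ ≤ 116486307840 * 16 * ((1 + (m : ℝ)) ^ 2 * (1 + (q : ℝ)) ^ 4 + ρ) := by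
          have : 1 * (1 + (q : ℝ)) ^ 4 ≤ (1 + (m : ℝ)) ^ 2 * (1 + (q : ℝ)) ^ 4 := by gcongr
          refine mul_le_mul_of_nonneg_left ?_ (by norm_num)
          linarith
  · have h32 : 32 * ρ ≤ T := by
      rw [hT]
      have : 0 ≤ (1 + (m : ℝ)) ^ 2 * (1 + (q : ℝ)) ^ 4 := by positivity
      nlinarith
    rcases h with ⟨v, hv, hvol, Z, hZ⟩ | ⟨V, g, c, hV, hcl⟩
    · have h3 := Pool.Agent.Q188.NC.kls_ball hn1 hdom v hv hvol (ρ * v) (by positivity)
        Z hZ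
      refine hmono _ h3 ?_
      have : 32 * (ρ * v) / v = 32 * ρ := by field_simp
      rw [this]
      exact h32
    · obtain ⟨v, hv, hvol⟩ := Pool.Agent.Q188.NC.exists_vr hn1 hdom
      have h3 := Pool.Agent.Q188.NC.kls_level hn1 hdom v hv hvol
        (⟨hV.pos, hV.low, hV.up⟩ : Pool.Agent.Q188.SB.Cond V g c (ρ * c)) hcl
      refine hmono _ h3 ?_
      have : 32 * (ρ * c) / c = 32 * ρ := by
        have := hV.pos
        field_simp
      rw [this]
      exact h32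

/-- **The hyperplane conjecture for nested norm compositions.** `b ≥ 1` or `k ≥ 1`; `K₀ ≥ 1`.
1. If the leaves have the Lipschitz gap `K₀`, a set built by `D` nested compositions has the Lipschitz gap
   `(4 b + k)^D K₀`.
2. Some central hyperplane section of such a set has area at most `C √((4 b + k)^D K₀) P(E; Ω)` for all
   `E` of half the volume, `C > 0` absolute.
3. In particular with `K₀ = (1 + m)² (1 + q)⁴ + ρ` if each leaf is a section of codimension at most `q` of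
   a product of symmetric convex sets of dimension at most `m`, or of a product of generalised `ℓ_p`
   balls (exponents at least `2`), or strongly convex with parameter `ρ`. -/
theorem result :
    (∀ (P : ∀ n : ℕ, Set (Euc n) → Prop) (K₀ : ℝ) (b k D n : ℕ) (Ω : Set (Euc n)), 1 ≤ b + k →
      1 ≤ K₀ → (∀ (n : ℕ) (B : Set (Euc n)), 1 ≤ n → Domain B → P n B → LipschitzGap K₀ B) →
      Nested P b k D n Ω → LipschitzGap ((4 * b + k) ^ D * K₀) Ω) ∧
    ∃ C : ℝ, 0 < C ∧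
      (∀ (P : ∀ n : ℕ, Set (Euc n) → Prop) (K₀ : ℝ) (b k D n : ℕ) (Ω : Set (Euc n)), 1 ≤ b + k →
        1 ≤ K₀ → (∀ (n : ℕ) (B : Set (Euc n)), 1 ≤ n → Domain B → P n B → LipschitzGap K₀ B) →
        Nested P b k D n Ω → HyperplaneBound (C * Real.sqrt ((4 * b + k) ^ D * K₀)) Ω) ∧
      (∀ (m q : ℕ) (ρ : ℝ) (b k D n : ℕ) (Ω : Set (Euc n)), 1 ≤ b + k → 1 ≤ ρ →
        Nested (fun _ B => SectionOfProduct m q B ∨ PowerBody q B ∨ StronglyConvex ρ B) b k D n Ω →
          HyperplaneBound (C * Real.sqrt ((4 * b + k) ^ D * ((1 + m) ^ 2 * (1 + q) ^ 4 + ρ))) Ω) := by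
  have hcomp : ∀ (b k : ℕ) (d : Fin b → ℕ) (B : ∀ i, Set (Euc (d i))) (Ω : Set (Space d k)),
      Composition B Ω → Pool.Agent.Q188.NC.NCm B Ω := fun b k d B Ω h =>
    ⟨h.dim, fun i => (h.ball i).dom, ⟨h.dom.op, h.dom.conv, h.dom.bdd, h.dom.ne, h.dom.symm⟩, h.dep⟩
  -- induction over the construction
  have h1 : ∀ (P : ∀ n : ℕ, Set (Euc n) → Prop) (K₀ : ℝ) (b k : ℕ), 1 ≤ b + k → 1 ≤ K₀ →
      (∀ (n : ℕ) (B : Set (Euc n)), 1 ≤ n → Domain B → P n B → LipschitzGap K₀ B) →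
      ∀ (D n : ℕ) (Ω : Set (Euc n)), Nested P b k D n Ω →
      Nonempty (Fin n) ∧ Pool.Agent.Q188.NC.Dom Ω ∧
        Pool.Agent.Q188.NC.KLS ((4 * b + k) ^ D * K₀) Ω := by
    intro P K₀ b k hbk hK₀ hP D n Ω hN
    have hb0 : (0 : ℝ) ≤ b := Nat.cast_nonneg b
    have hk0 : (0 : ℝ) ≤ k := Nat.cast_nonneg k
    have hbk' : (1 : ℝ) ≤ b + k := by exact_mod_cast hbk
    have hM : (1 : ℝ) ≤ 4 * b + k := by linarith
    induction hN with
    | leaf n B hn hB hPB =>
      refine ⟨⟨⟨0, hn⟩⟩, hB.dom, ?_⟩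
      rw [pow_zero, one_mul]
      exact hP n B hn hB hPB
    | node D n b' k' d e B Ω T hb' hk' hbk1 hC he hNi ih =>
      have hne : Nonempty ((Σ i : Fin b', Fin (d i)) ⊕ Fin k') := by
        by_cases hb : b' = 0
        · exact ⟨Sum.inr ⟨0, by omega⟩⟩
        · exact ⟨Sum.inl ⟨⟨0, by omega⟩, ⟨0, hC.dim _⟩⟩⟩
      have hne' : Nonempty (Fin n) := by
        have hfr : 0 < Module.finrank ℝ (Space d k') := by
          rw [finrank_euclideanSpace]
          exact Fintype.card_pos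
        rw [T.toLinearEquiv.finrank_eq, finrank_euclideanSpace, Fintype.card_fin] at hfr
        exact ⟨⟨0, hfr⟩⟩
      have hdom : Pool.Agent.Q188.NC.Dom Ω := (hcomp b' k' d B Ω hC).dΩ
      refine ⟨hne', Pool.Agent.Q188.NS.dom_iso T hdom, Pool.Agent.Q188.NS.kls_iso T ?_⟩
      have hT1 : (1 : ℝ) ≤ (4 * b + k) ^ D * K₀ := by
        have : (1 : ℝ) ≤ (4 * b + k) ^ D := one_le_pow₀ hM
        nlinarith
      have hi : ∀ i, Pool.Agent.Q188.NC.KLS ((4 * b + k) ^ D * K₀) (B i) := by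
        intro i
        have hni := (ih i).1
        refine Pool.Agent.Q188.NC.kls_mono (ih i).2.1.op (ih i).2.1.bdd (ih i).2.1.zero_mem
          (ih i).2.2 ?_
        have : ((4 : ℝ) * b + k) ^ (e i) ≤ (4 * b + k) ^ D := pow_le_pow_right₀ hM (he i)
        exact mul_le_mul_of_nonneg_right this (by linarith)
      have h2 := Pool.Agent.Q188.NC.kls_comp (hcomp b' k' d B Ω hC) (fun _ => by linarith) hi
      refine Pool.Agent.Q188.NC.kls_mono hdom.op hdom.bdd hdom.zero_mem h2 ?_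
      rw [Finset.sum_const, Finset.card_univ, Fintype.card_fin, nsmul_eq_mul]
      have hb1 : (b' : ℝ) ≤ b := by exact_mod_cast hb'
      have hk1 : (k' : ℝ) ≤ k := by exact_mod_cast hk'
      have hb00 : (0 : ℝ) ≤ b' := Nat.cast_nonneg b'
      have hk00 : (0 : ℝ) ≤ k' := Nat.cast_nonneg k'
      rw [pow_succ]
      set Y : ℝ := (4 * b + k) ^ D * K₀ with hY
      have e1 : (4 * (b : ℝ) + k) ^ D * (4 * b + k) * K₀ = (4 * b + k) * Y := by rw [hY]; ring
      rw [e1]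
      have e2 : (b' : ℝ) * Y ≤ b * Y := by nlinarith
      have e3 : (b : ℝ) ≤ b * Y := by nlinarith
      have e4 : (k : ℝ) ≤ k * Y := by nlinarith
      nlinarith
  obtain ⟨C, hC, H⟩ := Pool.Agent.Q188.NC.kls_hyp
  have h2 : ∀ (P : ∀ n : ℕ, Set (Euc n) → Prop) (K₀ : ℝ) (b k D n : ℕ) (Ω : Set (Euc n)), 1 ≤ b + k →
        1 ≤ K₀ → (∀ (n : ℕ) (B : Set (Euc n)), 1 ≤ n → Domain B → P n B → LipschitzGap K₀ B) →
        Nested P b k D n Ω → HyperplaneBound (C * Real.sqrt ((4 * b + k) ^ D * K₀)) Ω := by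
    intro P K₀ b k D n Ω hbk hK₀ hP hN
    obtain ⟨hne, hdom, hkls⟩ := h1 P K₀ b k hbk hK₀ hP D n Ω hN
    have hb0 : (0 : ℝ) ≤ b := Nat.cast_nonneg b
    have hk0 : (0 : ℝ) ≤ k := Nat.cast_nonneg k
    have hbk' : (1 : ℝ) ≤ b + k := by exact_mod_cast hbk
    have hM : (1 : ℝ) ≤ 4 * b + k := by linarith
    have hT0 : (0 : ℝ) < (4 * b + k) ^ D * K₀ := by positivity
    obtain ⟨a, ha, h⟩ := H _ Ω hdom.op hdom.conv hdom.bdd hdom.zero_mem hdom.symm _ hT0 hkls
    refine ⟨a, ha, fun E hE hEΩ hvol => ?_⟩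
    have h4 := h E hE hEΩ hvol
    rw [perimeter_eq] at h4
    exact h4
  have hC1 : (0 : ℝ) < 116486307840 * 16 := by norm_num
  refine ⟨fun P K₀ b k D n Ω hbk hK₀ hP hN => (h1 P K₀ b k hbk hK₀ hP D n Ω hN).2.2,
    C * Real.sqrt (116486307840 * 16), by positivity, ?_, ?_⟩
  · intro P K₀ b k D n Ω hbk hK₀ hP hN
    obtain ⟨a, ha, h⟩ := h2 P K₀ b k D n Ω hbk hK₀ hP hN
    refine ⟨a, ha, fun E hE hEΩ hvol => (h E hE hEΩ hvol).trans ?_⟩
    have hle : C ≤ C * Real.sqrt (116486307840 * 16) := by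
      refine le_mul_of_one_le_right hC.le ?_
      rw [Real.one_le_sqrt]
      norm_num
    gcongr
  · intro m q ρ b k D n Ω hbk hρ hN
    have hq1 : (0 : ℝ) ≤ q := Nat.cast_nonneg q
    have hm1 : (0 : ℝ) ≤ m := Nat.cast_nonneg m
    have hY : (1 : ℝ) ≤ (1 + (m : ℝ)) ^ 2 * (1 + (q : ℝ)) ^ 4 + ρ := by
      have : 0 ≤ (1 + (m : ℝ)) ^ 2 * (1 + (q : ℝ)) ^ 4 := by positivity
      linarith
    obtain ⟨a, ha, h⟩ := h2 _ (116486307840 * 16 * ((1 + (m : ℝ)) ^ 2 * (1 + (q : ℝ)) ^ 4 + ρ))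
      b k D n Ω hbk (by linarith) (fun n B hn hB hPB => leaf_gap n m q ρ hρ B hn hB hPB) hN
    refine ⟨a, ha, fun E hE hEΩ hvol => (h E hE hEΩ hvol).trans (le_of_eq ?_)⟩
    have e : C * Real.sqrt ((4 * (b : ℝ) + k) ^ D *
          (116486307840 * 16 * ((1 + (m : ℝ)) ^ 2 * (1 + (q : ℝ)) ^ 4 + ρ))) =
        C * Real.sqrt (116486307840 * 16) *
        Real.sqrt ((4 * (b : ℝ) + k) ^ D * ((1 + (m : ℝ)) ^ 2 * (1 + (q : ℝ)) ^ 4 + ρ)) := by
      rw [mul_assoc C, ← Real.sqrt_mul hC1.le]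
      congr 2
      ring
    rw [e]

end Pool.Agent.Results.MP_dc1397_gt.NestedNormCompositions
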