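import Pool.Agent.Q86.EM.Frb
import Pool.Agent.Q86.EM.Din
import Pool.Agent.Q86.EM.Tra

/-!
# The hyperplane conjecture of Kannan, Lovasz and Simonovits and parallel sections

Let `Ω = -Ω` be an open bounded convex set in `ℝ^m × ℝ^n` whose sections `{x : (t, x) ∈ Ω}`, `t ∈ ℝ^m`,
satisfy the KLS inequality (not necessarily symmetric sets) with the constant `k`. Then Q1 holds for `Ω`
with the constant `C^(m+1) k`, `C` absolute. No assumption is made on the way in which the sections vary.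
For example, Q1 holds with the constant `C^(m+1) (1 + q)²` if the closures of the sections are, up to a
translation, of the form `{x : ∑_j |ℓ_ij(x)|^{p_ij} ≤ 1 for all i}`, `p_ij ≥ 2`, with at most `n + q` linear
functionals (parallelepipeds, ellipsoids, linear images of `ℓ_p` balls, symmetric polytopes with `2 (n + q)`
facets); all these data may vary with the section.

Method. See `Pool/Agent/Results/MP_8d00da_gt/ParallelSections.lean` for the Poincare inequality; the
passage to perimeters of sets of half the volume is by lemmas of the starting files.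
-/

set_option autoImplicit false

namespace Pool.Agent.Results.MP_dc1397_gt.ParallelSections

open MeasureTheory Set
open scoped ENNReal InnerProductSpace

section defs

variable {κ : Type} [Fintype κ]

/-- an open, convex, bounded, nonempty set with `Ω = -Ω` -/
structure Domain (Ω : Set (EuclideanSpace ℝ κ)) : Prop where
  op : IsOpen Ω
  conv : Convex ℝ Ω
  bdd : Bornology.IsBounded Ω
  ne : Ω.Nonempty
  symm : ∀ x ∈ Ω, -x ∈ Ω

/-- the uniform probability measure on `K` -/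
noncomputable def unif (K : Set (EuclideanSpace ℝ κ)) : Measure (EuclideanSpace ℝ κ) :=
  (volume K)⁻¹ • volume.restrict K

/-- Minkowski (exterior) boundary measure `μ⁺(A)` -/
noncomputable def bdry (μ : Measure (EuclideanSpace ℝ κ)) (A : Set (EuclideanSpace ℝ κ)) : ℝ≥0∞ :=
  Filter.liminf (fun ε : ℝ => (μ (Metric.thickening ε A) - μ A) / ENNReal.ofReal ε)
    (nhdsWithin 0 (Set.Ioi 0))

/-- the halfspace `⟪u, x⟫ ≤ r` -/
def halfspace (u : EuclideanSpace ℝ κ) (r : ℝ) : Set (EuclideanSpace ℝ κ) := {x | ⟪u, x⟫_ℝ ≤ r}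

/-- **the KLS inequality for the convex set `K`, not necessarily symmetric, with the constant `1 / k`**: for
`μ` uniform on `K` and `t ∈ [0, ∞]`, if `t min(μ H, 1 - μ H) ≤ μ⁺(H)` for all halfspaces `H` then
`t min(μ A, 1 - μ A) ≤ k μ⁺(A)` for all measurable sets `A`. -/
def KLS (K : Set (EuclideanSpace ℝ κ)) (k : ℝ) : Prop := ∀ t : ℝ≥0∞,
  (∀ (u : EuclideanSpace ℝ κ) (r : ℝ), u ≠ 0 →
    t * min (unif K (halfspace u r)) (1 - unif K (halfspace u r)) ≤ bdry (unif K) (halfspace u r)) →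
  ∀ A : Set (EuclideanSpace ℝ κ), MeasurableSet A →
    t * min (unif K A) (1 - unif K A) ≤ ENNReal.ofReal k * bdry (unif K) A

/-- the Lebesgue measure of a Euclidean space -/
noncomputable def lebesgue (F : Type) [NormedAddCommGroup F] [InnerProductSpace ℝ F]
    [FiniteDimensional ℝ F] [MeasurableSpace F] [BorelSpace F] : Measure F := volume

/-- the Lebesgue measure (of the Euclidean space `W`) of the section `Ω ∩ W` by a subspace `W` -/
noncomputable def areaIn {F : Type} [NormedAddCommGroup F] [InnerProductSpace ℝ F]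
    [FiniteDimensional ℝ F] [MeasurableSpace F] [BorelSpace F] (W : Submodule ℝ F) (Ω : Set F) :
    ℝ≥0∞ := lebesgue W {y : W | (y : F) ∈ Ω}

open Classical in
/-- divergence of a vector field on `ℝ^κ` -/
noncomputable def divergence (X : EuclideanSpace ℝ κ → EuclideanSpace ℝ κ)
    (x : EuclideanSpace ℝ κ) : ℝ :=
  ∑ i, fderiv ℝ X x (EuclideanSpace.single i 1) i

/-- `C¹` vector fields with compact support in `Ω` and `‖X‖ ≤ 1` -/
structure Test (Ω : Set (EuclideanSpace ℝ κ)) (X : EuclideanSpace ℝ κ → EuclideanSpace ℝ κ) :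
    Prop where
  diff : ContDiff ℝ 1 X
  comp : HasCompactSupport X
  sub : tsupport X ⊆ Ω
  le : ∀ x, ‖X x‖ ≤ 1

/-- the (De Giorgi) perimeter `P(E; Ω)` of `E` relative to the open set `Ω` -/
noncomputable def perimeter (E Ω : Set (EuclideanSpace ℝ κ)) : ℝ≥0∞ :=
  ⨆ (X : EuclideanSpace ℝ κ → EuclideanSpace ℝ κ) (_ : Test Ω X),
    ENNReal.ofReal (∫ x in E, divergence X x)

/-- the area (Lebesgue measure in the hyperplane `a^⊥`) of the central section of `Ω` by `a^⊥` -/
noncomputable def sectionArea (Ω : Set (EuclideanSpace ℝ κ)) (a : EuclideanSpace ℝ κ) : ℝ≥0∞ :=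
  areaIn (Submodule.span ℝ {a})ᗮ Ω

/-- some central hyperplane section has area at most `K P(E; Ω)` for every measurable `E ⊆ Ω` with
`|E| = |Ω| / 2` -/
def HyperplaneBound (K : ℝ) (Ω : Set (EuclideanSpace ℝ κ)) : Prop :=
  ∃ a : EuclideanSpace ℝ κ, a ≠ 0 ∧ ∀ E : Set (EuclideanSpace ℝ κ), MeasurableSet E → E ⊆ Ω →
    volume E = volume Ω / 2 → sectionArea Ω a ≤ ENNReal.ofReal K * perimeter E Ω

/-- the perimeter is the one used in the proof -/
theorem perimeter_eq (E Ω : Set (EuclideanSpace ℝ κ)) :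
    Pool.Agent.W695.KH.per E Ω = perimeter E Ω := by
  unfold perimeter Pool.Agent.W695.KH.per
  refine iSup_congr fun X => ?_
  refine iSup_congr_Prop ⟨fun h => ⟨h.1, h.2.1, h.2.2.1, h.2.2.2⟩,
    fun h => ⟨h.diff, h.comp, h.sub, h.le⟩⟩ fun _ => rfl

end defs

/-- `ℝ^m × ℝ^n` with its Euclidean norm -/
abbrev Space (m n : ℕ) : Type := EuclideanSpace ℝ (Fin m ⊕ Fin n)

/-- the point `(t, x)` of `ℝ^m × ℝ^n` -/
noncomputable def point {m n : ℕ} (t : EuclideanSpace ℝ (Fin m)) (x : EuclideanSpace ℝ (Fin n)) :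
    Space m n := WithLp.toLp 2 (Sum.elim t x)

/-- the section `{x : (t, x) ∈ Ω}` of `Ω` over the point `t` of `ℝ^m` -/
def slice {m n : ℕ} (Ω : Set (Space m n)) (t : EuclideanSpace ℝ (Fin m)) :
    Set (EuclideanSpace ℝ (Fin n)) := {x | point t x ∈ Ω}

/-- `S` is, up to a translation, the set of all `x` with `∑_j |ℓ_ij(x)|^{p_ij} ≤ 1` for all `i`, where the
`ℓ_ij` are linear functionals on `ℝ^n`, at most `n + q` of them, and `p_ij ≥ 2`. -/
def PowerSections {n : ℕ} (q : ℕ) (S : Set (EuclideanSpace ℝ (Fin n))) : Prop :=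
  ∃ (a : EuclideanSpace ℝ (Fin n)) (N : ℕ) (d : Fin N → ℕ) (p : ∀ i, Fin (d i) → ℝ)
    (ell : ∀ i, Fin (d i) → (EuclideanSpace ℝ (Fin n) →ₗ[ℝ] ℝ)), (∀ i, 1 ≤ d i) ∧
    ∑ i, d i ≤ n + q ∧ (∀ i j, 2 ≤ p i j) ∧ S = {x | ∀ i, ∑ j, |ell i j (x - a)| ^ p i j ≤ 1}

theorem HyperplaneBound.mono {κ : Type} [Fintype κ] {Ω : Set (EuclideanSpace ℝ κ)} {K K' : ℝ}
    (h : K ≤ K') (hK : HyperplaneBound K Ω) : HyperplaneBound K' Ω := by
  obtain ⟨a, ha, h1⟩ := hK
  exact ⟨a, ha, fun E hE hEΩ hvol => (h1 E hE hEΩ hvol).trans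
    (mul_le_mul' (ENNReal.ofReal_le_ofReal h) le_rfl)⟩

/-- **The hyperplane conjecture passes from the parallel sections to the body.** There is an absolute
constant `C` such that for all `m ≥ 0`, `n ≥ 1` and all symmetric open bounded convex sets
`Ω ⊂ ℝ^m × ℝ^n`:
1. if all nonempty sections `{x : (t, x) ∈ Ω}` satisfy `KLS` with the constant `k ≥ 1` then some central
hyperplane section of `Ω` has area at most `C^(m+1) k P(E; Ω)` for all measurable `E ⊆ Ω` with
`|E| = |Ω| / 2`;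
2. if the closures of all nonempty sections are of the form `PowerSections q` then the same holds with
`C^(m+1) (1 + q)²`. -/
theorem result : ∃ C : ℝ, 1 ≤ C ∧ ∀ m n : ℕ, 1 ≤ n → ∀ Ω : Set (Space m n), Domain Ω →
    (∀ k : ℝ, 1 ≤ k → (∀ t : EuclideanSpace ℝ (Fin m), (slice Ω t).Nonempty → KLS (slice Ω t) k) →
      HyperplaneBound (C ^ (m + 1) * k) Ω) ∧
    ∀ q : ℕ, (∀ t : EuclideanSpace ℝ (Fin m), (slice Ω t).Nonempty →
      PowerSections q (closure (slice Ω t))) → HyperplaneBound (C ^ (m + 1) * (1 + q) ^ 2) Ω := by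
  obtain ⟨C₁, hC₁, H⟩ := Pool.Agent.Q86.EM.par_hyp Pool.Agent.Q86.EM.q_din
  obtain ⟨C₂, hC₂, H2⟩ := Pool.Agent.Q86.EM.PwB_kls
  refine ⟨C₁ * C₂, one_le_mul_of_one_le_of_one_le hC₁ hC₂, ?_⟩
  intro m n hn Ω hΩ
  have hOB : Pool.Agent.Q86.EM.OB Ω := ⟨hΩ.op, hΩ.conv, hΩ.bdd, hΩ.ne⟩
  have main : ∀ k : ℝ, 1 ≤ k → (∀ t : EuclideanSpace ℝ (Fin m), (slice Ω t).Nonempty →
      KLS (slice Ω t) k) → HyperplaneBound (C₁ ^ (m + 1) * k) Ω := by
    intro k hk h
    obtain ⟨a, ha, h1⟩ := H m n hn Ω hOB hΩ.symm k hk h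
    refine ⟨a, ha, fun E hE hEΩ hvol => ?_⟩
    have h2 := h1 E hE hEΩ hvol
    rw [perimeter_eq] at h2
    exact h2
  refine ⟨fun k hk h => ?_, fun q h => ?_⟩
  · refine HyperplaneBound.mono ?_ (main k hk h)
    rw [mul_pow]
    refine mul_le_mul_of_nonneg_right ?_ (by linarith)
    exact le_mul_of_one_le_right (by positivity) (one_le_pow₀ hC₂)
  · have hq : (1 : ℝ) ≤ (1 + q) ^ 2 := one_le_pow₀ (by
      have : (0 : ℝ) ≤ q := Nat.cast_nonneg q
      linarith)
    refine HyperplaneBound.mono ?_ (main (C₂ * (1 + q) ^ 2) (one_le_mul_of_one_le_of_one_le hC₂ hq)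
      fun t ht => ?_)
    · rw [mul_pow]
      have h1 : C₂ ≤ C₂ ^ (m + 1) := le_self_pow₀ hC₂ (by omega)
      calc C₁ ^ (m + 1) * (C₂ * (1 + (q : ℝ)) ^ 2) = C₁ ^ (m + 1) * C₂ * (1 + (q : ℝ)) ^ 2 := by ring
        _ ≤ C₁ ^ (m + 1) * C₂ ^ (m + 1) * (1 + (q : ℝ)) ^ 2 := by
            refine mul_le_mul_of_nonneg_right ?_ (by positivity)
            exact mul_le_mul_of_nonneg_left h1 (by positivity)
    · have hO := hOB.slice t ht
      exact (hO.KLSh_cl _).1 (H2 n q _ hn hO.bdd.closure (h t ht))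

end Pool.Agent.Results.MP_dc1397_gt.ParallelSections
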